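import Pool.Agent.Lib_helper40.MC.J

/-!
# The same classes in another order: check with the places
-/

set_option autoImplicit false

namespace Pool.Agent.MC

open TN MK4 KC72

/-- the entry at place `i` (`d` if there is none) -/
noncomputable def nthR {α : Type} (d : α) (l : List α) : ℕ → α :=
  List.rec (motive := fun _ => ℕ → α) (fun _ => d)
    (fun a _ ih i => Bool.rec (ih (Nat.sub i 1)) a (Nat.beq i 0)) l

lemma nthR_nil {α : Type} (d : α) (i : ℕ) : nthR d [] i = d := rfl

lemma nthR_zero {α : Type} (d a : α) (l : List α) : nthR d (a :: l) 0 = a := rfl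

lemma nthR_succ {α : Type} (d a : α) (l : List α) (i : ℕ) :
    nthR d (a :: l) (i + 1) = nthR d l i := rfl

lemma nthR_eq {α : Type} (d : α) (l : List α) (i : ℕ) : nthR d l i = l.getD i d := by
  induction l generalizing i with
  | nil => simp [nthR_nil]
  | cons a l ih =>
    cases i with
    | zero => simp [nthR_zero]
    | succ i => rw [nthR_succ, ih]; simp

/-- all the numbers `0, .., n - 1` are in `p`, with places `q` -/
noncomputable def permR (n : ℕ) (p q : List ℕ) : ℕ → Bool :=
  List.rec (motive := fun _ => ℕ → Bool) (fun i => Nat.beq i n)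
    (fun a _ ih i => Bool.rec false (ih (Nat.succ i)) (Nat.beq (nthR n p a) i)) q

lemma permR_spec (n : ℕ) (p q : List ℕ) (i : ℕ) (h : permR n p q i = true) :
    ∀ j, i ≤ j → j < n → j ∈ p := by
  induction q generalizing i with
  | nil =>
    intro j h1 h2
    have : i = n := Nat.eq_of_beq_eq_true h
    omega
  | cons a q ih =>
    have e : permR n p (a :: q) i = Bool.rec false (permR n p q (Nat.succ i))
        (Nat.beq (nthR n p a) i) := rfl
    rw [e] at h
    intro j h1 h2
    rcases hb : Nat.beq (nthR n p a) i with _ | _
    · rw [hb] at h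
      exact absurd h (by simp)
    · rw [hb] at h
      rcases Nat.eq_or_lt_of_le h1 with h3 | h3
      · have h5 := Nat.eq_of_beq_eq_true hb
        rw [nthR_eq] at h5
        by_cases hj : a < p.length
        · rw [List.getD_eq_getElem _ _ hj] at h5
          rw [← h3, ← h5]
          exact List.getElem_mem _
        · rw [List.getD_eq_default _ _ (by omega)] at h5
          omega
      · exact ih (Nat.succ i) h j h3 h2

lemma map_split {α β : Type} {f : α → β} {p : List α} {M : List β} (a : ℕ)
    (h : (p.take a).map f = M.take a) (h' : (p.drop a).map f = M.drop a) : p.map f = M := by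
  rw [← List.take_append_drop a p, List.map_append, h, h', List.take_append_drop]

/-- `sameC` from the places `p` of the classes of `M` in `L`, and the places `q` in `p` of the
numbers `0, 1, 2, ..` -/
theorem sameC_of_idx {L M : List (Mo × Mo)} (n : ℕ) (p q : List ℕ) (d : Mo × Mo)
    (hn : L.length = n) (h1 : p.map (nthR d L) = M)
    (h2 : p.all (fun i => Nat.blt i n) = true) (h3 : permR n p q 0 = true) :
    sameC L M = true := by
  rw [List.all_eq_true] at h2
  have hp : ∀ i ∈ p, i < L.length := fun i hi => by
    have := h2 i hi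
    rw [Nat.blt_eq] at this
    omega
  unfold sameC
  rw [Bool.and_eq_true, List.all_eq_true, List.all_eq_true]
  refine ⟨fun x hx => decide_eq_true ?_, fun x hx => decide_eq_true ?_⟩
  · obtain ⟨i, hi, rfl⟩ := List.getElem_of_mem hx
    have h6 : i ∈ p := permR_spec n p q 0 h3 i (Nat.zero_le i) (by omega)
    rw [← h1, List.mem_map]
    exact ⟨i, h6, by rw [nthR_eq]; exact List.getD_eq_getElem _ _ hi⟩
  · rw [← h1, List.mem_map] at hx
    obtain ⟨i, hi, rfl⟩ := hx
    rw [nthR_eq, List.getD_eq_getElem _ _ (hp i hi)]
    exact List.getElem_mem _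

end Pool.Agent.MC
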